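import Pool.Agent.H494R3.NK.Stmts

set_option autoImplicit false

/-! Task CornerSelf of project H494-NK. -/

namespace Pool.Agent.H996R3.NK

open Pool.Agent.H494R3.NK

universe u

section abs
variable {U : Type u} [CStarAlgebra U]

theorem norm_proj_le {p : U} (hpp : p * p = p) (hps : star p = p) : ‖p‖ ≤ 1 := by
  have h1 : ‖star p * p‖ = ‖p‖ * ‖p‖ := CStarRing.norm_star_mul_self
  rw [hps, hpp] at h1
  have h2 := norm_nonneg p
  by_contra h3
  push Not at h3
  nlinarith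

theorem g_sum {S : Finset ℝ} {g : ℝ → U} (hg : ∀ μ ∈ S, g μ * g μ = g μ)
    (hgo : ∀ μ ∈ S, ∀ ν ∈ S, μ ≠ ν → g μ * g ν = 0) (μ : ℝ) (hμ : μ ∈ S) :
    g μ * (∑ ν ∈ S, g ν) = g μ ∧ (∑ ν ∈ S, g ν) * g μ = g μ := by
  constructor
  · rw [Finset.mul_sum, Finset.sum_eq_single μ]
    · exact hg μ hμ
    · intro ν hν hne
      exact hgo μ hμ ν hν hne.symm
    · intro h
      exact absurd hμ h
  · rw [Finset.sum_mul, Finset.sum_eq_single μ]
    · exact hg μ hμ
    · intro ν hν hne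
      exact hgo ν hν μ hμ hne
    · intro h
      exact absurd hμ h

theorem main_abs (hc : TaskClose.{u}) (p x : U) (I : U → Prop) (I0 : I 0)
    (Iadd : ∀ a b, I a → I b → I (a + b)) (Iml : ∀ a z, I z → I (a * z))
    (Imr : ∀ a z, I z → I (z * a)) (hpp : p * p = p) (hps : star p = p) (hp : ¬ I p)
    (hd : ∀ f, f * f = f → p * f = f → f * p = f → I f ∨ I (p - f))
    (hx : star x = x) (hpx : p * x = x) (hxp : x * p = x)
    (hR : ∀ y : U, IsSelfAdjoint y → ∀ ε : ℝ, 0 < ε →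
      ∃ h : U, IsSelfAdjoint h ∧ (spectrum ℂ h).Finite ∧ ‖y - h‖ < ε)
    (ε : ℝ) (hε : 0 < ε) :
    ∃ (c : ℂ) (k : U), I k ∧ p * k = k ∧ k * p = k ∧ ‖x - (c • p + k)‖ < ε := by
  obtain ⟨N, hNdef⟩ : ∃ N : ℝ, N = ‖x‖ + 1 := ⟨_, rfl⟩
  have hN : 0 < N := by
    have := norm_nonneg x
    linarith
  obtain ⟨δ, hδ0, hδN, hδε⟩ : ∃ δ : ℝ, 0 < δ ∧ δ ≤ N / 8 ∧ δ ≤ ε / 24 :=
    ⟨min (N / 8) (ε / 24), lt_min (by linarith) (by linarith), min_le_left _ _, min_le_right _ _⟩
  obtain ⟨y, hy⟩ : ∃ y : U, y = x + (3 * N) • p := ⟨_, rfl⟩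
  have hys : IsSelfAdjoint y := by
    rw [isSelfAdjoint_iff, hy, star_add, star_smul, star_trivial (3 * N), hx, hps]
  obtain ⟨h, hh, hf, hyh⟩ := hR y hys δ hδ0
  have hfr : (spectrum ℝ h).Finite := by
    rw [← spectrum.preimage_algebraMap ℂ]
    exact hf.preimage (fun _ _ _ _ h => (algebraMap ℝ ℂ).injective h)
  obtain ⟨S, g, hS, hg, hgo, hpq, hyG⟩ := hc U p x h N δ hN hδ0 (by linarith) hpp hps hpx hxp hx
    (by linarith) hh hfr (by rw [← hy]; exact hyh.le)
  rw [← hy] at hyG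
  have hgS := fun μ hμ => g_sum (fun μ hμ => (hg μ hμ).1) hgo μ hμ
  obtain ⟨q, hq⟩ : ∃ q : U, q = ∑ μ ∈ S, g μ := ⟨_, rfl⟩
  rw [← hq] at hpq hgS
  have hqq : q * q = q := by
    calc q * q = (∑ μ ∈ S, g μ) * q := by rw [← hq]
      _ = ∑ μ ∈ S, g μ * q := Finset.sum_mul _ _ _
      _ = ∑ μ ∈ S, g μ := Finset.sum_congr rfl fun μ hμ => (hgS μ hμ).1
      _ = q := hq.symm
  have hp1 := norm_proj_le hpp hps
  have hpq4 : ‖p - q‖ ≤ 1 / 4 := by
    refine hpq.trans ?_
    rw [div_le_iff₀ hN]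
    linarith
  have hq1 : ‖q‖ ≤ 5 / 4 := by
    have h1 : q = p - (p - q) := by abel
    rw [h1]
    exact (norm_sub_le _ _).trans (by linarith)
  obtain ⟨v, hv⟩ : ∃ v : U, v = p * q + (1 - p) * (1 - q) := ⟨_, rfl⟩
  have hv1 : ‖1 - v‖ < 1 := by
    have h1 : 1 - v = p * (p - q) - (p - q) * q := by
      have h2 : p * (p - q) - (p - q) * q = p * p - p * q - p * q + q * q := by noncomm_ring
      rw [h2, hv, hpp, hqq]
      noncomm_ring
    rw [h1]
    have h3 : ‖p * (p - q)‖ ≤ 1 / 4 := by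
      refine (norm_mul_le _ _).trans ?_
      calc ‖p‖ * ‖p - q‖ ≤ 1 * (1 / 4) :=
            mul_le_mul hp1 hpq4 (norm_nonneg _) zero_le_one
        _ = 1 / 4 := by norm_num
    have h4 : ‖(p - q) * q‖ ≤ 5 / 16 := by
      refine (norm_mul_le _ _).trans ?_
      calc ‖p - q‖ * ‖q‖ ≤ (1 / 4) * (5 / 4) :=
            mul_le_mul hpq4 hq1 (norm_nonneg _) (by norm_num)
        _ = 5 / 16 := by norm_num
    exact lt_of_le_of_lt (norm_sub_le _ _) (by linarith)
  have hvu : IsUnit v := by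
    have h1 : v = 1 - (1 - v) := by abel
    rw [h1]
    exact isUnit_one_sub_of_norm_lt_one hv1
  obtain ⟨w, hvw, hwv⟩ : ∃ w : U, v * w = 1 ∧ w * v = 1 := by
    obtain ⟨z, rfl⟩ := hvu
    exact ⟨(z⁻¹ : Uˣ), Units.mul_inv z, Units.inv_mul z⟩
  have hvq : v * q = p * v := by
    have h1 : v * q = p * (q * q) + (1 - p) * (q - q * q) := by
      rw [hv]
      noncomm_ring
    have h2 : p * v = (p * p) * q + (p - p * p) * (1 - q) := by
      rw [hv]
      noncomm_ring
    rw [h1, h2, hqq, hpp, sub_self, sub_self, mul_zero, zero_mul]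
  have hqw : q * w = w * p := by
    calc q * w = (w * v) * q * w := by rw [hwv, one_mul]
      _ = w * (v * q) * w := by rw [mul_assoc w v q]
      _ = w * p * (v * w) := by rw [hvq]; noncomm_ring
      _ = w * p := by rw [hvw, mul_one]
  have hpvqw : p = v * q * w := by
    rw [hvq, mul_assoc, hvw, mul_one]
  have hwpv : w * p * v = q := by
    rw [← hqw, mul_assoc, hwv, mul_one]
  have hdg : ∀ μ ∈ S, I (g μ) ∨ I (q - g μ) := by
    intro μ hμ
    obtain ⟨h1, h2⟩ := hgS μ hμ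
    have h0 := (hg μ hμ).1
    have hgf : g μ = w * (v * g μ * w) * v := by
      calc g μ = (w * v) * g μ * (w * v) := by rw [hwv, one_mul, mul_one]
        _ = _ := by noncomm_ring
    rcases hd (v * g μ * w) (by
        calc v * g μ * w * (v * g μ * w) = v * g μ * (w * v) * g μ * w := by noncomm_ring
          _ = v * (g μ * g μ) * w := by rw [hwv]; noncomm_ring
          _ = _ := by rw [h0]) (by
        calc p * (v * g μ * w) = (p * v) * g μ * w := by noncomm_ring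
          _ = v * (q * g μ) * w := by rw [← hvq]; noncomm_ring
          _ = _ := by rw [h2]) (by
        calc v * g μ * w * p = v * g μ * (w * p) := by noncomm_ring
          _ = v * (g μ * q) * w := by rw [← hqw]; noncomm_ring
          _ = _ := by rw [h1]) with h3 | h3
    · left
      rw [hgf]
      exact Imr _ _ (Iml _ _ h3)
    · right
      have h4 : q - g μ = w * (p - v * g μ * w) * v := by
        conv_lhs => rw [hgf, ← hwpv]
        noncomm_ring
      rw [h4]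
      exact Imr _ _ (Iml _ _ h3)
  have hIq : ¬ I q := by
    intro h1
    apply hp
    rw [hpvqw]
    exact Imr _ _ (Iml _ _ h1)
  have Isum : ∀ (T : Finset ℝ) (F : ℝ → U), (∀ μ ∈ T, I (F μ)) → I (∑ μ ∈ T, F μ) := by
    classical
    intro T F
    induction T using Finset.induction_on with
    | empty => intro _; rw [Finset.sum_empty]; exact I0
    | insert a T ha ih =>
      intro hT
      rw [Finset.sum_insert ha]
      exact Iadd _ _ (hT a (Finset.mem_insert_self _ _))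
        (ih fun μ hμ => hT μ (Finset.mem_insert_of_mem hμ))
  obtain ⟨m0, hm0, hIm0⟩ : ∃ m ∈ S, ¬ I (g m) := by
    by_contra hcon
    push Not at hcon
    apply hIq
    rw [hq]
    exact Isum S g hcon
  have hIm1 : I (q - g m0) := (hdg m0 hm0).resolve_left hIm0
  have hIg : ∀ μ ∈ S, μ ≠ m0 → I (g μ) := by
    intro μ hμ hne
    have h1 : g μ = g μ * (q - g m0) := by
      rw [mul_sub, (hgS μ hμ).1, hgo μ hμ m0 hm0 hne, sub_zero]
    rw [h1]
    exact Iml _ _ hIm1
  have Ismul : ∀ (t : ℝ) (z : U), I z → I (t • z) := by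
    intro t z hz
    have h1 : t • z = (t • (1 : U)) * z := by rw [smul_mul_assoc, one_mul]
    rw [h1]
    exact Iml _ _ hz
  obtain ⟨k, hk⟩ : ∃ k : U, k = ∑ μ ∈ S, (μ - m0) • (p * g μ * p) := ⟨_, rfl⟩
  have hIk : I k := by
    rw [hk]
    refine Isum S _ fun μ hμ => ?_
    by_cases hne : μ = m0
    · rw [hne, sub_self, zero_smul]
      exact I0
    · exact Ismul _ _ (Imr _ _ (Iml _ _ (hIg μ hμ hne)))
  have hpk : p * k = k := by
    rw [hk, Finset.mul_sum]
    refine Finset.sum_congr rfl fun μ _ => ?_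
    rw [mul_smul_comm, ← mul_assoc, ← mul_assoc, hpp]
  have hkp : k * p = k := by
    rw [hk, Finset.sum_mul]
    refine Finset.sum_congr rfl fun μ _ => ?_
    rw [smul_mul_assoc, mul_assoc (p * g μ) p p, hpp]
  obtain ⟨G, hG⟩ : ∃ G : U, G = ∑ μ ∈ S, μ • g μ := ⟨_, rfl⟩
  rw [← hG] at hyG
  have hkG : k = p * G * p - m0 • (p * q * p) := by
    rw [hk, hG, hq]
    simp only [sub_smul, Finset.sum_sub_distrib, Finset.mul_sum, Finset.sum_mul,
      mul_smul_comm, smul_mul_assoc, Finset.smul_sum]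
  have hpy : p * y = y := by
    rw [hy, mul_add, mul_smul_comm, hpx, hpp]
  have hsplit : x - (((m0 - 3 * N : ℝ) : ℂ) • p + k) =
      p * (y - G * p) - m0 • (p * (p - q) * p) := by
    rw [Complex.coe_smul, hkG]
    have h1 : p * (y - G * p) = y - p * G * p := by
      rw [mul_sub, hpy, ← mul_assoc]
    have h2 : p * (p - q) * p = p - p * q * p := by
      rw [mul_sub, hpp, sub_mul, hpp]
    rw [h1, h2, hy, sub_smul, smul_sub]
    abel
  refine ⟨((m0 - 3 * N : ℝ) : ℂ), k, hIk, hpk, hkp, ?_⟩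
  rw [hsplit]
  have e1 : ‖p * (y - G * p)‖ ≤ 2 * δ := by
    refine (norm_mul_le _ _).trans ?_
    calc ‖p‖ * ‖y - G * p‖ ≤ 1 * (2 * δ) := mul_le_mul hp1 hyG (norm_nonneg _) zero_le_one
      _ = 2 * δ := one_mul _
  have e2 : ‖p * (p - q) * p‖ ≤ 2 * δ / N := by
    refine (norm_mul_le _ _).trans ?_
    have e3 : ‖p * (p - q)‖ ≤ 2 * δ / N := by
      refine (norm_mul_le _ _).trans ?_
      calc ‖p‖ * ‖p - q‖ ≤ 1 * (2 * δ / N) := mul_le_mul hp1 hpq (norm_nonneg _) zero_le_one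
        _ = 2 * δ / N := one_mul _
    calc ‖p * (p - q)‖ * ‖p‖ ≤ (2 * δ / N) * 1 :=
          mul_le_mul e3 hp1 (norm_nonneg _) (by positivity)
      _ = 2 * δ / N := mul_one _
  have e4 : ‖m0 • (p * (p - q) * p)‖ ≤ 10 * δ := by
    rw [norm_smul, Real.norm_eq_abs, abs_of_pos (lt_of_lt_of_le hN (hS m0 hm0).1)]
    calc m0 * ‖p * (p - q) * p‖ ≤ (5 * N) * (2 * δ / N) :=
          mul_le_mul (hS m0 hm0).2 e2 (norm_nonneg _) (by linarith)
      _ = 10 * δ := by
        field_simp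
        ring
  exact lt_of_le_of_lt (norm_sub_le _ _) (by linarith)

end abs

section conc
variable {A : Type u} [NonUnitalCStarAlgebra A]

theorem ir_zero (r : A) : (0 : A) ∈ Ir r := ⟨0, fun _ => 0, fun _ => 0, by simp⟩

theorem ir_add (r : A) {a b : A} (ha : a ∈ Ir r) (hb : b ∈ Ir r) : a + b ∈ Ir r := by
  obtain ⟨m, x, y, rfl⟩ := ha
  obtain ⟨n, x', y', rfl⟩ := hb
  refine ⟨m + n, Fin.append x x', Fin.append y y', ?_⟩
  rw [Fin.sum_univ_add]
  simp

theorem exists_mul_left (a : Unitization ℂ A) (x : A) :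
    ∃ x' : A, (x' : Unitization ℂ A) = a * x := by
  refine ⟨(a * (x : Unitization ℂ A)).snd, ?_⟩
  apply Unitization.ext
  · rw [Unitization.fst_inr, Unitization.fst_mul, Unitization.fst_inr, mul_zero]
  · rfl

theorem exists_mul_right (a : Unitization ℂ A) (x : A) :
    ∃ x' : A, (x' : Unitization ℂ A) = x * a := by
  refine ⟨((x : Unitization ℂ A) * a).snd, ?_⟩
  apply Unitization.ext
  · rw [Unitization.fst_inr, Unitization.fst_mul, Unitization.fst_inr, zero_mul]
  · rfl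

theorem inr_sum {m : ℕ} (F : Fin m → A) :
    ((∑ i, F i : A) : Unitization ℂ A) = ∑ i, (F i : Unitization ℂ A) :=
  map_sum (Unitization.inrNonUnitalAlgHom ℂ A) F Finset.univ

theorem ir_mul_left (r : A) (a : Unitization ℂ A) {z : A} (hz : z ∈ Ir r) :
    ∃ z' ∈ Ir r, (z' : Unitization ℂ A) = a * z := by
  obtain ⟨m, x, y, rfl⟩ := hz
  choose x' hx' using fun i => exists_mul_left a (x i)
  refine ⟨∑ i, x' i * r * y i, ⟨m, x', y, rfl⟩, ?_⟩
  rw [inr_sum, inr_sum, Finset.mul_sum]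
  refine Finset.sum_congr rfl fun i _ => ?_
  rw [Unitization.inr_mul, Unitization.inr_mul, hx', Unitization.inr_mul, Unitization.inr_mul]
  noncomm_ring

theorem ir_mul_right (r : A) (a : Unitization ℂ A) {z : A} (hz : z ∈ Ir r) :
    ∃ z' ∈ Ir r, (z' : Unitization ℂ A) = z * a := by
  obtain ⟨m, x, y, rfl⟩ := hz
  choose y' hy' using fun i => exists_mul_right a (y i)
  refine ⟨∑ i, x i * r * y' i, ⟨m, x, y', rfl⟩, ?_⟩
  rw [inr_sum, inr_sum, Finset.sum_mul]
  refine Finset.sum_congr rfl fun i _ => ?_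
  rw [Unitization.inr_mul ℂ (x i * r) (y' i), hy', Unitization.inr_mul ℂ (x i * r) (y i)]
  noncomm_ring

end conc

theorem taskCornerSelf (hc : TaskClose.{u}) : TaskCornerSelf.{u} := by
  intro A _ hR r p _ hpp hps hp hd x hx hpx hxp ε hε
  have hinj : ∀ a b : A, (a : Unitization ℂ A) = b → a = b :=
    fun a b h => Unitization.inr_injective h
  obtain ⟨c, k, ⟨k', hk', rfl⟩, hpk, hkp, hlt⟩ := main_abs hc (p : Unitization ℂ A)
    (x : Unitization ℂ A) (fun z => ∃ w ∈ Ir r, (w : Unitization ℂ A) = z)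
    ⟨0, ir_zero r, Unitization.inr_zero ℂ⟩
    (by
      rintro _ _ ⟨a, ha, rfl⟩ ⟨b, hb, rfl⟩
      exact ⟨a + b, ir_add r ha hb, Unitization.inr_add ℂ a b⟩)
    (by
      rintro a _ ⟨z, hz, rfl⟩
      exact ir_mul_left r a hz)
    (by
      rintro a _ ⟨z, hz, rfl⟩
      exact ir_mul_right r a hz)
    (by rw [← Unitization.inr_mul, hpp])
    (by rw [← Unitization.inr_star, hps])
    (by
      rintro ⟨w, hw, hwp⟩
      exact hp (hinj _ _ hwp ▸ hw))
    (by
      intro f hff hpf hfp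
      obtain ⟨f', hf'⟩ : ∃ f' : A, (f' : Unitization ℂ A) = f := by
        obtain ⟨f', hf'⟩ := exists_mul_right f p
        exact ⟨f', hf'.trans hpf⟩
      subst hf'
      rw [← Unitization.inr_mul] at hff hpf hfp
      rcases hd f' (hinj _ _ hff) (hinj _ _ hpf) (hinj _ _ hfp) with h | h
      · exact Or.inl ⟨f', h, rfl⟩
      · exact Or.inr ⟨p - f', h, Unitization.inr_sub ℂ p f'⟩)
    (by rw [← Unitization.inr_star, hx])
    (by rw [← Unitization.inr_mul, hpx])
    (by rw [← Unitization.inr_mul, hxp])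
    hR ε hε
  rw [← Unitization.inr_mul] at hpk hkp
  refine ⟨c, k', hk', hinj _ _ hpk, hinj _ _ hkp, ?_⟩
  rw [← Unitization.norm_inr (𝕜 := ℂ)]
  rw [Unitization.inr_sub, Unitization.inr_add, Unitization.inr_smul]
  exact hlt

end Pool.Agent.H996R3.NK
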